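import Pool.Agent.H79.BR.Targets

/-!
Module CSL of board br_modules (MP_ee74d2_an): slope lemma.
-/

set_option autoImplicit false

open MeasureTheory Set

namespace Pool.Agent.H34.BR

open Pool.Agent.H79.BR

theorem pf_csl : T_CSL := by
  have hC0 : (∫⁻ x : ℝ, ENNReal.ofReal ((1 + ‖x‖) ^ (-(2 : ℝ)))) < ⊤ :=
    finite_integral_one_add_norm (by simp)
  have hg : ∀ x : ℝ, ENNReal.ofReal ((1 + ‖x‖) ^ (-(2 : ℝ))) =
      ENNReal.ofReal (((1 + |x|) ^ 2)⁻¹) := by
    intro x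
    rw [Real.norm_eq_abs, Real.rpow_neg (by positivity), Real.rpow_two]
  simp only [hg] at hC0
  set C0 := ∫⁻ x : ℝ, ENNReal.ofReal (((1 + |x|) ^ 2)⁻¹) with hC0def
  refine ⟨4 * C0.toReal, by positivity, ?_⟩
  intro lam b t hl
  set S : Set ℝ := {z : ℝ | 0 < z ∧ Real.sqrt (b ^ 2 + z ^ 2) ≤ 4 * z} with hS
  have hSm : MeasurableSet S := by
    have e1 : Measurable fun z : ℝ => Real.sqrt (b ^ 2 + z ^ 2) := by fun_prop
    have e2 : Measurable fun z : ℝ => 4 * z := by fun_prop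
    exact measurableSet_Ioi.inter (measurableSet_le e1 e2)
  have hpos : ∀ z ∈ S, 0 < b ^ 2 + z ^ 2 := by
    intro z hz
    have := hz.1
    positivity
  have hder : ∀ z ∈ S, HasDerivWithinAt (fun z => lam * (Real.sqrt (b ^ 2 + z ^ 2) - t))
      (lam * (z / Real.sqrt (b ^ 2 + z ^ 2))) S z := by
    intro z hz
    have h1 : HasDerivAt (fun z : ℝ => b ^ 2 + z ^ 2) (2 * z) z := by
      have := (hasDerivAt_pow 2 z).const_add (b ^ 2)
      simpa using this
    have h2 := h1.sqrt (hpos z hz).ne'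
    have h3 := (h2.sub_const t).const_mul lam
    refine (h3.congr_deriv ?_).hasDerivWithinAt
    have h4 : 0 < Real.sqrt (b ^ 2 + z ^ 2) := Real.sqrt_pos.2 (hpos z hz)
    field_simp
  have hinj : InjOn (fun z => lam * (Real.sqrt (b ^ 2 + z ^ 2) - t)) S := by
    intro z hz w hw hzw
    simp only at hzw
    have h1 : Real.sqrt (b ^ 2 + z ^ 2) = Real.sqrt (b ^ 2 + w ^ 2) := by
      have := mul_left_cancel₀ hl.ne' hzw
      linarith
    have h2 : b ^ 2 + z ^ 2 = b ^ 2 + w ^ 2 := by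
      have h3 := Real.sq_sqrt (hpos z hz).le
      have h4 := Real.sq_sqrt (hpos w hw).le
      rw [← h3, ← h4, h1]
    have h5 : z ^ 2 = w ^ 2 := by linarith
    exact (pow_left_inj₀ hz.1.le hw.1.le (by norm_num)).1 h5
  have hcv := lintegral_image_eq_lintegral_abs_deriv_mul hSm hder hinj
    (fun x => ENNReal.ofReal (((1 + |x|) ^ 2)⁻¹))
  have h1 : ENNReal.ofReal (lam / 4) *
      ∫⁻ z in S, ENNReal.ofReal (((1 + lam * |Real.sqrt (b ^ 2 + z ^ 2) - t|) ^ 2)⁻¹) ≤ C0 := by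
    calc ENNReal.ofReal (lam / 4) *
        ∫⁻ z in S, ENNReal.ofReal (((1 + lam * |Real.sqrt (b ^ 2 + z ^ 2) - t|) ^ 2)⁻¹)
        = ∫⁻ z in S, ENNReal.ofReal (lam / 4) *
            ENNReal.ofReal (((1 + lam * |Real.sqrt (b ^ 2 + z ^ 2) - t|) ^ 2)⁻¹) := by
          rw [lintegral_const_mul' _ _ ENNReal.ofReal_ne_top]
      _ ≤ ∫⁻ z in S, ENNReal.ofReal |lam * (z / Real.sqrt (b ^ 2 + z ^ 2))| *
            ENNReal.ofReal (((1 + |lam * (Real.sqrt (b ^ 2 + z ^ 2) - t)|) ^ 2)⁻¹) := by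
          refine setLIntegral_mono' hSm ?_
          intro z hz
          rw [abs_mul, abs_mul, abs_of_pos hl]
          refine mul_le_mul_left (ENNReal.ofReal_le_ofReal ?_) _
          have h4 : 0 < Real.sqrt (b ^ 2 + z ^ 2) := Real.sqrt_pos.2 (hpos z hz)
          have h5 : 1 / 4 ≤ z / Real.sqrt (b ^ 2 + z ^ 2) := by
            rw [le_div_iff₀ h4]
            have := hz.2
            linarith
          have h6 := le_abs_self (z / Real.sqrt (b ^ 2 + z ^ 2))
          calc lam / 4 = lam * (1 / 4) := by ring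
            _ ≤ lam * |z / Real.sqrt (b ^ 2 + z ^ 2)| := by
              exact mul_le_mul_of_nonneg_left (h5.trans h6) hl.le
      _ = ∫⁻ x in (fun z => lam * (Real.sqrt (b ^ 2 + z ^ 2) - t)) '' S,
            ENNReal.ofReal (((1 + |x|) ^ 2)⁻¹) := hcv.symm
      _ ≤ C0 := setLIntegral_le_lintegral _ _
  have h2 : ENNReal.ofReal (lam / 4) ≠ 0 := by
    rw [Ne, ENNReal.ofReal_eq_zero, not_le]
    positivity
  have h3 : ∫⁻ z in S, ENNReal.ofReal (((1 + lam * |Real.sqrt (b ^ 2 + z ^ 2) - t|) ^ 2)⁻¹) ≤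
      C0 / ENNReal.ofReal (lam / 4) := by
    rw [ENNReal.le_div_iff_mul_le (Or.inl h2) (Or.inl ENNReal.ofReal_ne_top), mul_comm]
    exact h1
  refine h3.trans (le_of_eq ?_)
  have h4 : C0 = ENNReal.ofReal C0.toReal := (ENNReal.ofReal_toReal hC0.ne).symm
  rw [h4, ← ENNReal.ofReal_div_of_pos (by positivity)]
  congr 1
  rw [ENNReal.toReal_ofReal ENNReal.toReal_nonneg]
  field_simp

end Pool.Agent.H34.BR
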