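import Pool.Agent.H84.B2.Targets
import Pool.Agent.H83.LS.HIGHG

/-! HG2. One dyadic block with Bessel potentials, rotations of two blocks. Adapted from HG1. -/

set_option autoImplicit false

namespace Pool.Agent.H34.BR

open MeasureTheory Set FourierTransform
open scoped ENNReal NNReal SchwartzMap
open Pool.Agent.H84.B2 Pool.Agent.H84.BR Pool.Agent.H83.AR Pool.Agent.H93.AR Pool.Agent.H83.LS
open Pool.Agent.H54.LS Pool.Agent.H14.LS

/-- radial functions are killed by the generators of rotations -/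
theorem rotd_radial {d : ℕ} {κ : ℝ → ℂ} (hκ : Sm κ) {lam : ℝ} (hl : 0 < lam) (i j : Fin d)
    (ξ : EE d) : rotd i j (fun ξ : EE d => κ (‖ξ‖ / lam)) ξ = 0 := by
  by_cases hξ : ξ = 0
  · subst hξ
    unfold rotd
    simp
  · have hn : 0 < ‖ξ‖ := norm_pos_iff.mpr hξ
    have h1 : HasFDerivAt (fun x : EE d => ‖x‖ ^ 2) (2 • (innerSL ℝ ξ)) ξ :=
      (hasStrictFDerivAt_norm_sq ξ).hasFDerivAt
    have hpos : 0 < ‖ξ‖ ^ 2 := by positivity
    have h2 : DifferentiableAt ℝ (fun y : ℝ => κ (√y / lam)) (‖ξ‖ ^ 2) := by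
      have hd : Differentiable ℝ κ := hκ.1.differentiable (by simp)
      have hs : DifferentiableAt ℝ (fun y : ℝ => √y / lam) (‖ξ‖ ^ 2) :=
        (Real.hasDerivAt_sqrt hpos.ne').differentiableAt.div_const _
      exact (hd _).comp _ hs
    obtain ⟨g, hg⟩ : ∃ g : ℂ, HasDerivAt (fun y : ℝ => κ (√y / lam)) g (‖ξ‖ ^ 2) :=
      ⟨_, h2.hasDerivAt⟩
    have h3 : HasFDerivAt (fun x : EE d => κ (√(‖x‖ ^ 2) / lam))
        ((ContinuousLinearMap.toSpanSingleton ℝ g).comp (2 • (innerSL ℝ ξ))) ξ :=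
      HasFDerivAt.comp (g := fun y : ℝ => κ (√y / lam)) (f := fun x : EE d => ‖x‖ ^ 2) ξ
        hg.hasFDerivAt h1
    have h4 : (fun x : EE d => κ (√(‖x‖ ^ 2) / lam)) =
        (fun x : EE d => κ (‖x‖ / lam)) := by
      funext x
      rw [Real.sqrt_sq (norm_nonneg _)]
    rw [h4] at h3
    unfold rotd
    rw [h3.fderiv]
    simp only [ContinuousLinearMap.comp_apply, ContinuousLinearMap.toSpanSingleton_apply,
      smul_apply, innerSL_apply_apply, EuclideanSpace.inner_single_right]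
    simp
    ring

theorem rotd_conj {d : ℕ} (i j : Fin d) {f : EE d → ℂ} (x : EE d) :
    rotd i j (fun y => (starRingEnd ℂ) (f y)) x = (starRingEnd ℂ) (rotd i j f x) := by
  unfold rotd
  have h1 : fderiv ℝ (fun y => (starRingEnd ℂ) (f y)) x =
      (Complex.conjCLE : ℂ →L[ℝ] ℂ).comp (fderiv ℝ f x) := by
    have := (Complex.conjCLE).comp_fderiv (f := f) (x := x)
    exact this
  rw [h1]
  simp [map_sub, map_mul]

/-- the analytic core -/
theorem core2 (hS : T_BL2) (hR : T_RADL) (hYG : T_YG) (hROT : T_ROT2) {a b : ℕ} {p r η : ℝ}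
    (ha2 : 2 ≤ a) (hb2 : 2 ≤ b) (hp : 2 + 2 / ((a : ℝ) + b - 1) ≤ p) (hη : 0 < η) {κ : ℝ → ℂ}
    (hκ : Sm κ) :
    ∃ C : ℝ≥0, ∀ (lam : ℝ) (u v : 𝓢(EE (a + b), ℂ)) (B₀ B₁ : ℝ≥0∞), 1 ≤ lam → B₀ ≤ B₁ →
      ∫⁻ x, ‖besS r u x‖ₑ ^ p ≤ B₀ → (∀ i j : Fin (a + b), (i.val < a ↔ j.val < a) →
        ∫⁻ x, ‖besS r (rotd i j u) x‖ₑ ^ p ≤ B₁) →
      (∀ x, v x = MM (fun ξ => κ (‖ξ‖ / lam)) u x) →
      (∫⁻ t in Icc (1 : ℝ) 2, ∫⁻ x, ‖MM (mT lam t) v x‖ₑ ^ p ≤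
        C * ENNReal.ofReal (lam ^ (((a : ℝ) + b - 1) * (p / 2 - 1) - 1 - p * r + η)) *
          (B₀ ^ (1 - 2 / p) * B₁ ^ (2 / p))) ∧
      (∫⁻ t in Icc (1 : ℝ) 2, ∫⁻ x, ‖MM (mT lam t) (fun y => (starRingEnd ℂ) (v y)) x‖ₑ ^ p ≤
        C * ENNReal.ofReal (lam ^ (((a : ℝ) + b - 1) * (p / 2 - 1) - 1 - p * r + η)) *
          (B₀ ^ (1 - 2 / p) * B₁ ^ (2 / p))) := by
  have hab : (0 : ℝ) < (a : ℝ) + b - 1 := by
    have h1 : (2 : ℝ) ≤ a := by exact_mod_cast ha2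
    have h2 : (2 : ℝ) ≤ b := by exact_mod_cast hb2
    linarith
  have hab2 : 0 ≤ 2 / ((a : ℝ) + b - 1) := by positivity
  have hp1 : 1 ≤ p := by linarith
  obtain ⟨C₁, hC₁⟩ := hS a b p η ha2 hb2 hp hη
  obtain ⟨M, C₂, hC₂⟩ := hR (a + b) (by omega)
  obtain ⟨B, hB0, hB⟩ := fam_CB hκ r M
  refine ⟨C₁ * (Real.toNNReal (C₂ * B)) ^ p, ?_⟩
  intro lam u v B₀ B₁ hl hB01 hu0 hu1 hv
  have hl0 : 0 < lam := by linarith
  -- the kernel
  have ha : 1 / lam ∈ Icc (0 : ℝ) 1 := by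
    refine ⟨by positivity, ?_⟩
    rw [div_le_one hl0]; exact hl
  have hK := (hC₂ (fam κ r (1 / lam)) B lam 0 (hB _ ha) hl0 le_rfl).1
  have hrk : rk (d := a + b) (fam κ r (1 / lam)) lam 0 =
      MK (fun ξ => fam κ r (1 / lam) (‖ξ‖ / lam)) := by
    funext x
    unfold rk
    congr 1
    funext ξ
    rw [zero_mul, e_zero, one_mul]
  rw [hrk, mul_zero, add_zero, Real.one_rpow, mul_one] at hK
  have hfS := fam_Sm hκ r (1 / lam)
  -- the bound for one Schwartz function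
  have one : ∀ u' : 𝓢(EE (a + b), ℂ),
      ∫⁻ x, ‖MM (fun ξ => κ (‖ξ‖ / lam)) u' x‖ₑ ^ p ≤ ENNReal.ofReal (lam ^ (-(p * r))) *
      ((Real.toNNReal (C₂ * B) : ℝ≥0∞) ^ p * ∫⁻ x, ‖besS r u' x‖ₑ ^ p) := by
    intro u'
    obtain ⟨g, hg1, hg2⟩ := besS_schwartz r u'
    have hY := MM_young hYG (radial_int (d := a + b) hfS hl0) g.integrable
      g.continuous.measurable hp1
    have hvg : ∀ x, MM (fun ξ => κ (‖ξ‖ / lam)) u' x = ((lam ^ (-r) : ℝ) : ℂ) *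
        MM (fun ξ => fam κ r (1 / lam) (‖ξ‖ / lam)) g x := by
      intro x
      unfold MM
      rw [← integral_const_mul]
      congr 1; ext ξ
      rw [hg1]
      have h1 := fam_bs κ r hl0 ξ
      simp only
      rw [h1]
      ring
    have h1 : ∀ x, ‖MM (fun ξ => κ (‖ξ‖ / lam)) u' x‖ₑ ^ p = ENNReal.ofReal (lam ^ (-(p * r))) *
        ‖MM (fun ξ => fam κ r (1 / lam) (‖ξ‖ / lam)) g x‖ₑ ^ p := by
      intro x
      rw [hvg, enorm_mul, ENNReal.mul_rpow_of_nonneg _ _ (by linarith)]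
      congr 1
      rw [← ofReal_norm, Complex.norm_real, Real.norm_of_nonneg (by positivity),
        ENNReal.ofReal_rpow_of_nonneg (by positivity) (by linarith), ← Real.rpow_mul hl0.le]
      congr 2; ring
    simp_rw [h1]
    rw [lintegral_const_mul' _ _ ENNReal.ofReal_ne_top]
    gcongr
    refine le_trans hY ?_
    have h2 : ∫⁻ x, ‖g x‖ₑ ^ p = ∫⁻ x, ‖besS r u' x‖ₑ ^ p := by
      congr 1; ext x; rw [hg2]
    rw [h2]
    gcongr
    exact hK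
  have hvMM : (v : EE (a + b) → ℂ) = fun x => 𝓕⁻ (fun ξ => κ (‖ξ‖ / lam) *
      𝓕 (u : EE (a + b) → ℂ) ξ) x := by
    funext x
    rw [hv x, MM_eq]
  have hvw : ∀ (i j : Fin (a + b)) (Bd : ℝ≥0∞), ∫⁻ x, ‖besS r (rotd i j u) x‖ₑ ^ p ≤ Bd →
      ∫⁻ x, ‖rotd i j v x‖ₑ ^ p ≤ ENNReal.ofReal (lam ^ (-(p * r))) *
      ((Real.toNNReal (C₂ * B) : ℝ≥0∞) ^ p * Bd) := by
    intro i j Bd hw
    obtain ⟨g', hg'⟩ := (hROT (a + b) u i j).1
    have hg2 : (g' : EE (a + b) → ℂ) = rotd i j u := funext hg'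
    have h1 := one g'
    rw [hg2] at h1
    have h2 : ∀ x, rotd i j v x = MM (fun ξ => κ (‖ξ‖ / lam)) (rotd i j u) x := by
      intro x
      rw [hvMM, MM_eq]
      exact ((hROT (a + b) u i j).2.2 (fun ξ => κ (‖ξ‖ / lam)) (radial_temp hκ hl0)
        (fun ξ => rotd_radial hκ hl0 i j ξ)).2 x
    simp_rw [h2]
    refine h1.trans ?_
    gcongr
  set K : ℝ≥0∞ := ENNReal.ofReal (lam ^ (-(p * r))) * (Real.toNNReal (C₂ * B) : ℝ≥0∞) ^ p with hK'
  have hv0 : ∫⁻ x, ‖v x‖ₑ ^ p ≤ K * B₀ := by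
    have h1 := one u
    simp_rw [← hv] at h1
    rw [← mul_assoc] at h1
    refine h1.trans ?_
    gcongr
  have hv1 : RotB a b p v (K * B₁) := by
    intro i j hij
    have := hvw i j B₁ (hu1 i j hij)
    rw [← mul_assoc] at this
    exact this
  have hfin : ∀ v' : 𝓢(EE (a + b), ℂ), ∫⁻ x, ‖v' x‖ₑ ^ p ≤ K * B₀ →
      RotB a b p v' (K * B₁) →
      ∫⁻ t in Icc (1 : ℝ) 2, ∫⁻ x, ‖MM (mT lam t) v' x‖ₑ ^ p ≤
        ((C₁ * (Real.toNNReal (C₂ * B)) ^ p : ℝ≥0) : ℝ≥0∞) *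
          ENNReal.ofReal (lam ^ (((a : ℝ) + b - 1) * (p / 2 - 1) - 1 - p * r + η)) *
          (B₀ ^ (1 - 2 / p) * B₁ ^ (2 / p)) := by
    intro v' h0 h1
    have hp2 : 0 ≤ 1 - 2 / p := by
      rw [sub_nonneg, div_le_one (by linarith)]
      linarith
    have hp3 : 0 ≤ 2 / p := by positivity
    refine le_trans (hC₁ lam v' (K * B₀) (K * B₁) hl (by gcongr) h0 h1) (le_of_eq ?_)
    have h2 : lam ^ (((a : ℝ) + b - 1) * (p / 2 - 1) - 1 - p * r + η) =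
        lam ^ (((a : ℝ) + b - 1) * (p / 2 - 1) - 1 + η) * lam ^ (-(p * r)) := by
      rw [← Real.rpow_add hl0]; congr 1; ring
    have h3 : (K * B₀) ^ (1 - 2 / p) * (K * B₁) ^ (2 / p) =
        K * (B₀ ^ (1 - 2 / p) * B₁ ^ (2 / p)) := by
      rw [ENNReal.mul_rpow_of_nonneg _ _ hp2, ENNReal.mul_rpow_of_nonneg _ _ hp3]
      have h4 : K ^ (1 - 2 / p) * K ^ (2 / p) = K := by
        rw [← ENNReal.rpow_add_of_nonneg _ _ hp2 hp3, sub_add_cancel, ENNReal.rpow_one]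
      calc K ^ (1 - 2 / p) * B₀ ^ (1 - 2 / p) * (K ^ (2 / p) * B₁ ^ (2 / p)) =
          (K ^ (1 - 2 / p) * K ^ (2 / p)) * (B₀ ^ (1 - 2 / p) * B₁ ^ (2 / p)) := by ring
        _ = _ := by rw [h4]
    rw [h3, h2, hK', ENNReal.ofReal_mul (by positivity), ENNReal.coe_mul,
      ENNReal.coe_rpow_of_nonneg _ (by linarith)]
    ring
  constructor
  · exact hfin v hv0 hv1
  · have h1 : (fun y => (starRingEnd ℂ) (v y)) = (Pool.Agent.H83.LS.HG.cjS v : EE (a + b) → ℂ) := rfl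
    rw [h1]
    apply hfin
    · have h2 : ∀ x, ‖(Pool.Agent.H83.LS.HG.cjS v : EE (a + b) → ℂ) x‖ₑ = ‖v x‖ₑ := by
        intro x
        rw [← h1, ← ofReal_norm, RCLike.norm_conj, ofReal_norm]
      simp_rw [h2]
      exact hv0
    · intro i j hij
      have h2 : ∀ x, ‖rotd i j (Pool.Agent.H83.LS.HG.cjS v : EE (a + b) → ℂ) x‖ₑ =
          ‖rotd i j v x‖ₑ := by
        intro x
        rw [← h1, rotd_conj, ← ofReal_norm, RCLike.norm_conj, ofReal_norm]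
      simp_rw [h2]
      exact hv1 i j hij

set_option maxHeartbeats 1600000 in
theorem pf_hg2 (hS : T_BL2) (hR : T_RADL) (hYG : T_YG) (hROT : T_ROT2) : T_HG2 := by
  intro a b p r η ha2 hb2 hp hη
  have hab : (0 : ℝ) < (a : ℝ) + b - 1 := by
    have h1 : (2 : ℝ) ≤ a := by exact_mod_cast ha2
    have h2 : (2 : ℝ) ≤ b := by exact_mod_cast hb2
    linarith
  have hab2 : 0 ≤ 2 / ((a : ℝ) + b - 1) := by positivity
  have hp0 : 0 ≤ p := by linarith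
  obtain ⟨C₀, hC₀⟩ := core2 hS hR hYG hROT (r := r) ha2 hb2 hp hη kap0_Sm
  obtain ⟨C₁, hC₁⟩ := core2 hS hR hYG hROT (r := r) ha2 hb2 hp hη kap1_Sm
  refine ⟨2 * (C₀ + C₁), ?_⟩
  intro lam u B₀ B₁ hl hB01 hu0 hu1
  have hl0 : 0 < lam := by linarith
  have hcm : ∀ t : ℝ, Measurable fun ξ : EE (a + b) => (starRingEnd ℂ) (mT lam t ξ) := by
    intro t
    exact Complex.continuous_conj.measurable.comp
      ((mT_meas lam).comp (measurable_const.prodMk measurable_id))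
  have hmm : ∀ t : ℝ, Measurable fun ξ : EE (a + b) => mT lam t ξ := fun t =>
    (mT_meas lam).comp (measurable_const.prodMk measurable_id)
  have hcn : ∀ (t : ℝ) (ξ : EE (a + b)), ‖(starRingEnd ℂ) (mT lam t ξ)‖ ≤ 1 := by
    intro t ξ; rw [RCLike.norm_conj]; exact mT_norm lam t ξ
  constructor
  · obtain ⟨v, hv1, hv2⟩ := schwartz_mult (radial_temp (d := a + b) kap0_Sm hl0) u
    obtain ⟨hA, hB⟩ := hC₀ lam u v B₀ B₁ hl hB01 hu0 hu1 hv2
    refine le_trans (split_bound lam p hp0 v _ (1 / 2) (by simp) 1 (by simp) ?_) ?_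
    · intro t x
      rw [one_mul]
      unfold MM
      rw [← integral_add (sym_int (hmm t) (mT_norm lam t) v x) (sym_int (hcm t) (hcn t) v x),
        ← integral_const_mul]
      congr 1; ext ξ
      rw [hv1]
      unfold mT kap0
      rw [map_mul, Complex.conj_ofReal, conj_e, e_eq (t * ‖ξ‖), e_eq (-(t * ‖ξ‖))]
      have h1 : 2 * Real.pi * -(t * ‖ξ‖) = -(2 * Real.pi * t * ‖ξ‖) := by ring
      have h2 : 2 * Real.pi * (t * ‖ξ‖) = 2 * Real.pi * t * ‖ξ‖ := by ring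
      rw [h1, h2, Real.cos_neg, Real.sin_neg]
      have h3 : ((chi (‖ξ‖ / lam) : ℝ) : ℂ) * ((chis (‖ξ‖ / lam) : ℝ) : ℂ) =
          ((chi (‖ξ‖ / lam) : ℝ) : ℂ) := by exact_mod_cast congrArg Complex.ofReal (chi_chis _)
      push_cast
      linear_combination (-(e (inner ℝ x ξ)) * Complex.cos (2 * Real.pi * t * ‖ξ‖) *
        𝓕 (u : EE (a + b) → ℂ) ξ) * h3
    · refine le_trans (add_le_add hA hB) ?_
      rw [← two_mul]
      calc 2 * (C₀ * ENNReal.ofReal (lam ^ (((a : ℝ) + b - 1) * (p / 2 - 1) - 1 - p * r + η)) *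
            (B₀ ^ (1 - 2 / p) * B₁ ^ (2 / p))) = ((2 * C₀ : ℝ≥0) : ℝ≥0∞) *
            ENNReal.ofReal (lam ^ (((a : ℝ) + b - 1) * (p / 2 - 1) - 1 - p * r + η)) *
            (B₀ ^ (1 - 2 / p) * B₁ ^ (2 / p)) := by push_cast; ring
        _ ≤ _ := by
          gcongr
          exact le_self_add
  · obtain ⟨v, hv1, hv2⟩ := schwartz_mult (radial_temp (d := a + b) kap1_Sm hl0) u
    obtain ⟨hA, hB⟩ := hC₁ lam u v B₀ B₁ hl hB01 hu0 hu1 hv2
    set z : ℝ → EE (a + b) → ℂ := fun t x => (lam : ℂ) *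
      MM (fun ξ => ((Real.sin (2 * Real.pi * t * ‖ξ‖) / (2 * Real.pi * ‖ξ‖) *
        chi (‖ξ‖ / lam) : ℝ) : ℂ)) u x with hz
    have hzb := split_bound lam p hp0 v z (-(1 / 2 * Complex.I)) (by simp) (-1) (by simp) ?_
    · have h1 : ∀ t x, ‖MM (fun ξ => ((Real.sin (2 * Real.pi * t * ‖ξ‖) /
          (2 * Real.pi * ‖ξ‖) * chi (‖ξ‖ / lam) : ℝ) : ℂ)) u x‖ₑ ^ p =
          ENNReal.ofReal (lam ^ (-p)) * ‖z t x‖ₑ ^ p := by
        intro t x
        rw [hz]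
        simp only
        rw [enorm_mul, ENNReal.mul_rpow_of_nonneg _ _ hp0, ← mul_assoc]
        have h2 : ‖(lam : ℂ)‖ₑ = ENNReal.ofReal lam := by
          rw [← ofReal_norm, Complex.norm_real, Real.norm_of_nonneg hl0.le]
        rw [h2, ENNReal.ofReal_rpow_of_pos hl0, ← ENNReal.ofReal_mul (by positivity),
          ← Real.rpow_add hl0]
        simp
      simp_rw [h1]
      simp_rw [lintegral_const_mul' _ _ (ENNReal.ofReal_ne_top (r := lam ^ (-p)))]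
      refine le_trans (mul_le_mul_right (le_trans hzb (add_le_add hA hB)) _) ?_
      rw [← two_mul]
      have h3 : lam ^ (((a : ℝ) + b - 1) * (p / 2 - 1) - 1 - p * (r + 1) + η) =
          lam ^ (-p) * lam ^ (((a : ℝ) + b - 1) * (p / 2 - 1) - 1 - p * r + η) := by
        rw [← Real.rpow_add hl0]; congr 1; ring
      rw [h3, ENNReal.ofReal_mul (by positivity)]
      calc ENNReal.ofReal (lam ^ (-p)) * (2 * (C₁ *
            ENNReal.ofReal (lam ^ (((a : ℝ) + b - 1) * (p / 2 - 1) - 1 - p * r + η)) *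
            (B₀ ^ (1 - 2 / p) * B₁ ^ (2 / p)))) = ((2 * C₁ : ℝ≥0) : ℝ≥0∞) *
            (ENNReal.ofReal (lam ^ (-p)) *
            ENNReal.ofReal (lam ^ (((a : ℝ) + b - 1) * (p / 2 - 1) - 1 - p * r + η))) *
            (B₀ ^ (1 - 2 / p) * B₁ ^ (2 / p)) := by push_cast; ring
        _ ≤ _ := by
          gcongr
          exact le_add_self
    · intro t x
      rw [hz]
      unfold MM
      beta_reduce
      rw [← integral_const_mul, ← integral_const_mul,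
        ← integral_add (sym_int (hmm t) (mT_norm lam t) v x)
          ((sym_int (hcm t) (hcn t) v x).const_mul (-1)),
        ← integral_const_mul]
      congr 1; ext ξ
      rw [hv1]
      unfold mT kap1
      rw [map_mul, Complex.conj_ofReal, conj_e, e_eq (t * ‖ξ‖), e_eq (-(t * ‖ξ‖))]
      have h1 : 2 * Real.pi * -(t * ‖ξ‖) = -(2 * Real.pi * t * ‖ξ‖) := by ring
      have h2 : 2 * Real.pi * (t * ‖ξ‖) = 2 * Real.pi * t * ‖ξ‖ := by ring
      rw [h1, h2, Real.cos_neg, Real.sin_neg]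
      have h3 : chi (‖ξ‖ / lam) * (chis (‖ξ‖ / lam) / (2 * Real.pi * (‖ξ‖ / lam))) =
          lam * (chi (‖ξ‖ / lam) / (2 * Real.pi * ‖ξ‖)) := by
        rw [← mul_div_assoc, chi_chis]
        rcases eq_or_ne ‖ξ‖ 0 with h0 | h0
        · simp [h0]
        · field_simp
      have h4 : ((chi (‖ξ‖ / lam) : ℝ) : ℂ) *
          ((chis (‖ξ‖ / lam) / (2 * Real.pi * (‖ξ‖ / lam)) : ℝ) : ℂ) =
          (lam : ℂ) * ((chi (‖ξ‖ / lam) / (2 * Real.pi * ‖ξ‖) : ℝ) : ℂ) := by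
        exact_mod_cast congrArg Complex.ofReal h3
      have h5 : ((Real.sin (2 * Real.pi * t * ‖ξ‖) / (2 * Real.pi * ‖ξ‖) *
          chi (‖ξ‖ / lam) : ℝ) : ℂ) = ((Real.sin (2 * Real.pi * t * ‖ξ‖) : ℝ) : ℂ) *
          ((chi (‖ξ‖ / lam) / (2 * Real.pi * ‖ξ‖) : ℝ) : ℂ) := by
        rw [← Complex.ofReal_mul]; congr 1; ring
      rw [h5]
      generalize ((chi (‖ξ‖ / lam) / (2 * Real.pi * ‖ξ‖) : ℝ) : ℂ) = X at h4 ⊢
      generalize ((chis (‖ξ‖ / lam) / (2 * Real.pi * (‖ξ‖ / lam)) : ℝ) : ℂ) = Y at h4 ⊢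
      generalize ((chi (‖ξ‖ / lam) : ℝ) : ℂ) = Z at h4 ⊢
      generalize ((Real.cos (2 * Real.pi * t * ‖ξ‖) : ℝ) : ℂ) = c
      rw [Complex.ofReal_neg]
      generalize ((Real.sin (2 * Real.pi * t * ‖ξ‖) : ℝ) : ℂ) = s
      generalize e (inner ℝ x ξ) = E
      generalize 𝓕 (u : EE (a + b) → ℂ) ξ = w
      have hI : Complex.I * Complex.I = -1 := Complex.I_mul_I
      linear_combination (-(E * s * w)) * h4 + (E * s * w * Z * Y) * hI

end Pool.Agent.H34.BR
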