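import Pool.Agent.H79.BR.Targets

/-!
Module SV of board br_modules (MP_ee74d2_an): sup bound for data near the axis.
-/

set_option autoImplicit false

open MeasureTheory Set

namespace Pool.Agent.H34.BR

open Pool.Agent.H83.LS Pool.Agent.H93.AR Pool.Agent.H54.LS Pool.Agent.H14.LS Pool.Agent.H83.AR
open Pool.Agent.H79.BR
open scoped ENNReal NNReal

theorem pf_sv (hCSW : T_CSW) (hPLE : T_PLE) : T_SV := by
  intro n hn
  obtain ⟨C, hC0, hC⟩ := hCSW n hn
  refine ⟨C, hC0, ?_⟩
  intro lam Lam t A δ f hl hL hLl ht hf hlL hδ1 hδ2 hsupp x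
  have hA := bcd_nonneg hf
  have hl0 : 0 < lam := by linarith
  obtain ⟨h1, -⟩ := hPLE (n + 1) (mj n lam Lam t) f (mj_meas' n lam Lam t)
    (fun ξ => le_trans (mj_le n lam Lam t ξ) (mT_norm lam t ξ)) (mj_int n hl0 Lam t) (bcd_int hf)
    ⟨A, hf.2.1⟩ hf.1
  have hhor : Measurable fun w : EE (n + 1) => hor (x - w) :=
    hor_cont.measurable.comp (measurable_const.sub measurable_id)
  have hδ0 : 0 ≤ δ * Lam := by
    have : 0 < Lam := by linarith
    have h2 : 0 < 1 / Lam := by positivity
    have h3 : 0 < δ := lt_of_lt_of_le h2 hδ1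
    positivity
  have h3 : ‖MM (mj n lam Lam t) f x‖ₑ ≤
      ENNReal.ofReal (C * (δ * Lam) ^ ((n : ℝ) / 2) * A) := by
    rw [h1]
    refine le_trans (enorm_integral_le_lintegral_enorm _) ?_
    calc ∫⁻ y, ‖MK (mj n lam Lam t) (x - y) * f y‖ₑ
        ≤ ∫⁻ y, (({w : EE (n + 1) | hor (x - w) ≤ δ}).indicator
            (fun w => ‖MK (mj n lam Lam t) w‖ₑ) (x - y)) * ENNReal.ofReal A := by
          refine lintegral_mono fun y => ?_
          rw [enorm_mul]
          by_cases hy : f y = 0
          · rw [hy]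
            simp
          · have hy2 := hsupp y hy
            rw [indicator_of_mem (show x - y ∈ {w : EE (n + 1) | hor (x - w) ≤ δ} by
              simpa using hy2)]
            gcongr
            rw [← ofReal_norm]
            exact ENNReal.ofReal_le_ofReal (hf.2.1 y)
      _ = (∫⁻ w, ({w : EE (n + 1) | hor (x - w) ≤ δ}).indicator
            (fun w => ‖MK (mj n lam Lam t) w‖ₑ) w) * ENNReal.ofReal A := by
          rw [lintegral_mul_const' _ _ ENNReal.ofReal_ne_top,
            lintegral_sub_left_eq_self (fun y => ({w : EE (n + 1) | hor (x - w) ≤ δ}).indicator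
              (fun w => ‖MK (mj n lam Lam t) w‖ₑ) y) x]
      _ = (∫⁻ w in {w : EE (n + 1) | hor (x - w) ≤ δ}, ‖MK (mj n lam Lam t) w‖ₑ) *
            ENNReal.ofReal A := by
          rw [lintegral_indicator (measurableSet_le hhor measurable_const)]
      _ ≤ ENNReal.ofReal (C * (δ * Lam) ^ ((n : ℝ) / 2)) * ENNReal.ofReal A := by
          gcongr
          exact hC lam Lam t δ x hl hL hLl ht hlL hδ1 hδ2
      _ = _ := by
          rw [← ENNReal.ofReal_mul (by positivity)]
  rw [← ofReal_norm] at h3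
  exact (ENNReal.ofReal_le_ofReal_iff (by positivity)).1 h3

end Pool.Agent.H34.BR
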